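import Pool.Agent.H75.RW.Targets

/-!
# De Mol's tag system S₂ on random words: modules CHI, BKC, XOH, FIR
-/

set_option autoImplicit false

open List Pool.Agent.H68.TG

namespace Pool.Agent.H75.RW.CHI

/-! ### CHI -/

private theorem chi_ff (t : ℕ) (b : Bool) (ρ : V t) :
    chi t (ms (t + 2) [false] ((false, b, ρ) : V (t + 2))) = -chi t ((false, b, ρ) : V (t + 2)) := by
  have h : ms (t + 2) [false] ((false, b, ρ) : V (t + 2)) = (true, ms (t + 1) [true] (b, ρ)) := rfl
  rw [h]
  cases b
  · have h2 : ms (t + 1) [true] ((false, ρ) : V (t + 1)) = (false, ms t [false] ρ) := rfl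
    rw [h2]
    simp [chi]
  · have h2 : ms (t + 1) [true] ((true, ρ) : V (t + 1)) =
      (true, ms t [false, false, false] ρ) := rfl
    rw [h2]
    simp [chi]

private theorem chi_tf (t : ℕ) (b : Bool) (ρ : V t) :
    chi t (ms (t + 2) [false] ((true, b, ρ) : V (t + 2))) = -chi t ((true, b, ρ) : V (t + 2)) := by
  have h : ms (t + 2) [false] ((true, b, ρ) : V (t + 2)) = (false, (b, ρ)) := ms_ft (t + 1) (b, ρ)
  rw [h]
  cases b <;> simp [chi]

private theorem chi_f (t : ℕ) (σ : V (t + 2)) : chi t (ms (t + 2) [false] σ) = -chi t σ := by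
  obtain ⟨a, b, ρ⟩ := σ
  cases a
  · exact chi_ff t b ρ
  · exact chi_tf t b ρ

private theorem ms_f_fst (t : ℕ) (b : Bool) (ρ : V t) :
    (ms (t + 1) [false] ((b, ρ) : V (t + 1))).1 = !b := by
  cases b <;> rfl

private theorem ms_fff_fst (t : ℕ) (b : Bool) (ρ : V t) :
    (ms (t + 1) [false, false, false] ((b, ρ) : V (t + 1))).1 = !b := by
  cases b <;> rfl

private theorem chi_t (t : ℕ) (σ : V (t + 2)) : chi t (ms (t + 2) [true] σ) = -chi t σ := by
  obtain ⟨a, b, ρ⟩ := σ
  cases a
  · have h : ms (t + 2) [true] ((false, b, ρ) : V (t + 2)) =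
      (false, ms (t + 1) [false] (b, ρ)) := rfl
    rw [h]
    unfold chi
    simp only [ms_f_fst]
    cases b <;> simp
  · have h : ms (t + 2) [true] ((true, b, ρ) : V (t + 2)) =
      (true, ms (t + 1) [false, false, false] (b, ρ)) := rfl
    rw [h]
    unfold chi
    simp only [ms_fff_fst]
    cases b <;> simp

theorem pf_CHI : T_CHI := by
  intro t
  refine ⟨?_, ?_, chi_f t, chi_t t, ?_⟩
  · intro σ
    unfold chi
    split_ifs <;> norm_num
  · rw [sumV, sumV, sumV]
    simp [chi]
  · intro c σ
    fin_cases c
    · exact chi_t t σ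
    · exact chi_f t σ
    · have h : img ((fun i => i) (⟨2, by omega⟩ : Fin 3)) = [false] ++ ([false] ++ [false]) := rfl
      rw [h, ms_append, ms_append, chi_f, chi_f, chi_f]
      ring

/-! ### BKC -/

private theorem bkc_aux (T : ℕ) : ∀ (s : Bool) (σ : V (T + 1)),
    (Finset.univ.filter fun f : V (T + 1) => bk (T + 1) s f = σ).card ≤ 2 := by
  induction T with
  | zero =>
    intro s σ
    refine (Finset.card_le_univ _).trans ?_
    rw [cardV]
    norm_num
  | succ T ih =>
    intro s σ
    refine (Finset.card_le_card_of_injOn (fun f : V (T + 2) => f.2) ?_ ?_).trans (ih σ.2.1 σ.2)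
    · intro f hf
      have h1 : bk (T + 2) s f = σ := by simpa using hf
      have h2 : σ.2 = bk (T + 1) f.1 f.2 := by rw [← h1]; rfl
      have h3 : σ.2.1 = f.1 := by rw [h2]; rfl
      simp only [Finset.coe_filter, Finset.mem_univ, true_and, Set.mem_ofPred_eq]
      rw [h3, h2]
    · intro f hf g hg hfg
      have h1 : bk (T + 2) s f = σ := by simpa using hf
      have h1' : bk (T + 2) s g = σ := by simpa using hg
      have h2 : f.1 = σ.2.1 := by rw [← h1]; rfl
      have h3 : g.1 = σ.2.1 := by rw [← h1']; rfl
      exact Prod.ext (h2.trans h3.symm) hfg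

theorem pf_BKC : T_BKC := by
  intro T s σ
  cases T with
  | zero =>
    refine (Finset.card_le_univ _).trans ?_
    rw [cardV]
    norm_num
  | succ T => exact bkc_aux T s σ

/-! ### XOH -/

theorem pf_XOH : T_XOH := by
  intro T
  induction T with
  | zero => intro i q σ; cases i <;> rfl
  | succ T ih =>
    intro i q σ
    cases i with
    | zero => rfl
    | succ i =>
      obtain ⟨c, x⟩ := q
      obtain ⟨s, ρ⟩ := σ
      simp only [mo, xo]
      rw [← ih i (nb s (c, x)) ρ]
      cases c
      · rw [(Pool.Agent.H43.TG.tr_false x s).1]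
        simp [nb]
      · rw [(Pool.Agent.H43.TG.tr_true x s).1]
        simp [nb]

/-! ### FIR -/

private theorem ma_tr (w : List Bool) : ma (tr false w) + ma (tr true w) = 2 * ma w := by
  induction w with
  | nil => rfl
  | cons c w ih =>
    have e1 : ∀ u : List Bool, ma (false :: u) = ma u + 1 := fun u => by
      simp [ma, emb]
    have e2 : ∀ u : List Bool, ma (true :: u) = ma u + 2 := fun u => by
      simp [ma, emb]
    cases c
    · simp only [tr, e1, e2]
      omega
    · simp only [tr, e1, e2]
      omega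

theorem pf_FIR : T_FIR := by
  intro T
  induction T with
  | zero =>
    intro i w h
    have h0 : i = 0 := by omega
    subst h0
    simp only [mo]
    rw [Finset.sum_const, Finset.card_univ, cardV]
    simp
  | succ T ih =>
    intro i w h
    cases i with
    | zero =>
      simp only [mo]
      rw [Finset.sum_const, Finset.card_univ, cardV]
      simp
    | succ i =>
      rw [sumV]
      simp only [mo]
      rw [ih i (tr false w) (by omega), ih i (tr true w) (by omega)]
      have h1 := ma_tr w
      have h2 : (ma (tr false w) : ℝ) + ma (tr true w) = 2 * ma w := by exact_mod_cast h1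
      rw [pow_succ]
      linear_combination (2 : ℝ) ^ T * h2

end Pool.Agent.H75.RW.CHI
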