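import Pool.Agent.H75.RW.Targets

/-!
# De Mol's tag system S₂ on random words: module LEV (all levels)
-/

set_option autoImplicit false

open List Pool.Agent.H68.TG

namespace Pool.Agent.H75.RW.LEV

private theorem ind_ex (T : ℕ) (p : ℕ → Prop) :
    ind (¬ ∀ i ≤ T, p i) ≤ ∑ i ∈ Finset.range (T + 1), ind (¬ p i) := by
  by_cases h : ∀ i ≤ T, p i
  · rw [ind_not _ (by simpa using h)]
    exact Finset.sum_nonneg fun i _ => ind_nonneg _
  · rw [ind_of _ h]
    have h1 : ∃ i, i ≤ T ∧ ¬ p i := by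
      by_contra h2
      apply h
      intro i hi
      by_contra h3
      exact h2 ⟨i, hi, h3⟩
    obtain ⟨i, hi, hp⟩ := h1
    have h2 : (1 : ℝ) = ind (¬ p i) := (ind_of _ hp).symm
    rw [h2]
    exact Finset.single_le_sum (f := fun i => ind (¬ p i)) (fun i _ => ind_nonneg _)
      (Finset.mem_range.2 (by omega))

theorem pf_LEV (hCHB : T_CHB) (hSRV : T_SRV) : T_LEV := by
  intro T n s a ha hT hn
  obtain ⟨t, rfl⟩ : ∃ t, T = t + 2 := ⟨T - 2, by omega⟩
  have hc : (((t + 2 : ℕ) : ℝ) + 1) = (t : ℝ) + 3 := by push_cast; ring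
  rw [hc] at hn
  set X : ℝ := (9 / 2 : ℝ) ^ (t + 2) with hX
  have hmn : (n / 2 : ℕ) + (n - n / 2) = n := by omega
  have hm2 : 6000 * X * ((t : ℝ) + 3) ≤ ((n - n / 2 : ℕ) : ℝ) := by
    refine hn.trans ?_
    have : n / 2 ≤ n - n / 2 := by omega
    exact_mod_cast this
  have hnn : ((n / 2 : ℕ) : ℝ) + ((n - n / 2 : ℕ) : ℝ) = n := by exact_mod_cast hmn
  have h54 : ∀ i ≤ t + 2, (5 / 4 : ℝ) ^ i ≤ (5 / 4) ^ (t + 2) := fun i hi =>
    pow_le_pow_right₀ (by norm_num) hi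
  set E : ℝ := 10 ^ 7 * X * (5 / 4) ^ (t + 2) * n / a ^ 2 with hE
  have h1 : ∀ i ≤ t + 2, avg n (fun x => ind (a ≤
      |(ma (mo (t + 2) i (W x) (cs (t + 2) s (W x))) : ℝ) - 2 * n|)) ≤ E := by
    intro i hi
    have h2 := hCHB t (n / 2) (n - n / 2) i s a ha hi hn hm2
    rw [hmn, hnn] at h2
    refine h2.trans ?_
    rw [hE]
    gcongr
    · norm_num
  have h3 : ∀ i ≤ t + 2, avg n (fun x => ind (1.38 * (59 / 60) ^ i * (n : ℝ) + a ≤
      SS (t + 2) (sv (t + 2) i) (cs (t + 2) s (W x)) x)) ≤ E := by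
    intro i hi
    have h2 := hSRV t (n / 2) (n - n / 2) i s a ha hi hn hm2
    rw [hmn, hnn] at h2
    refine h2.trans ?_
    rw [hE]
    gcongr
    · norm_num
  have h4 : avg n (fun x => ind (¬ ∀ i ≤ t + 2,
      |(ma (mo (t + 2) i (W x) (cs (t + 2) s (W x))) : ℝ) - 2 * n| < a ∧
      SS (t + 2) (sv (t + 2) i) (cs (t + 2) s (W x)) x < 1.38 * (59 / 60) ^ i * n + a)) ≤
      avg n (fun x => ∑ i ∈ Finset.range (t + 2 + 1), (ind (a ≤
        |(ma (mo (t + 2) i (W x) (cs (t + 2) s (W x))) : ℝ) - 2 * n|) +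
        ind (1.38 * (59 / 60) ^ i * (n : ℝ) + a ≤
        SS (t + 2) (sv (t + 2) i) (cs (t + 2) s (W x)) x))) := by
    refine avg_mono n _ _ fun x _ => ?_
    refine (ind_ex (t + 2) _).trans (Finset.sum_le_sum fun i _ => ?_)
    refine le_trans (ind_mono _ _ ?_) (ind_or _ _)
    intro h
    by_contra h5
    push Not at h5
    exact h ⟨h5.1, h5.2⟩
  refine h4.trans ?_
  rw [avg_sum]
  have h5 : ∀ i ∈ Finset.range (t + 2 + 1), avg n (fun x => (ind (a ≤
        |(ma (mo (t + 2) i (W x) (cs (t + 2) s (W x))) : ℝ) - 2 * n|) +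
        ind (1.38 * (59 / 60) ^ i * (n : ℝ) + a ≤
        SS (t + 2) (sv (t + 2) i) (cs (t + 2) s (W x)) x))) ≤ 2 * E := by
    intro i hi
    have hi' : i ≤ t + 2 := by
      have := Finset.mem_range.1 hi
      omega
    rw [avg_add]
    linarith [h1 i hi', h3 i hi']
  refine (Finset.sum_le_sum h5).trans ?_
  rw [Finset.sum_const, Finset.card_range, nsmul_eq_mul]
  push_cast
  linarith

end Pool.Agent.H75.RW.LEV
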