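import Pool.Agent.H75.RW.Targets

/-!
# De Mol's tag system S₂ on random words: module SEC (second moments)
-/

set_option autoImplicit false

open List Pool.Agent.H68.TG

namespace Pool.Agent.H75.RW.SEC

private theorem ma_f (u : List Bool) : (ma (false :: u) : ℝ) = ma u + 1 := by
  simp [ma, emb]

private theorem ma_t (u : List Bool) : (ma (true :: u) : ℝ) = ma u + 2 := by
  have h : ma (true :: u) = ma u + 2 := by simp [ma, emb]
  rw [h]
  push_cast
  ring

private theorem sum_two (w : List Bool) :
    (ma (tr false w) : ℝ) + ma (tr true w) = 2 * ma w := by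
  induction w with
  | nil => simp [tr, ma, emb]
  | cons c w ih =>
    cases c
    · simp only [tr, ma_f, ma_t]
      linarith
    · simp only [tr, ma_f, ma_t]
      linarith

private theorem dif_two (w : List Bool) :
    -(ma w : ℝ) ≤ (ma (tr false w) : ℝ) - ma (tr true w) ∧
      (ma (tr false w) : ℝ) - ma (tr true w) ≤ ma w + 1 := by
  induction w with
  | nil => simp [tr, ma, emb]
  | cons c w ih =>
    cases c
    · simp only [tr, ma_f, ma_t]
      constructor <;> linarith [ih.1, ih.2]
    · simp only [tr, ma_f, ma_t]
      constructor <;> linarith [ih.1, ih.2]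

private theorem one_lev (w : List Bool) :
    ((ma (tr false w) : ℝ) ^ 2 + 4 * ma (tr false w)) +
      ((ma (tr true w) : ℝ) ^ 2 + 4 * ma (tr true w)) ≤
      2 * (5 / 4) * ((ma w : ℝ) ^ 2 + 4 * ma w) := by
  have h1 := sum_two w
  obtain ⟨h2, h3⟩ := dif_two w
  by_cases hm : ma w = 0
  · have hw : w = [] := by
      cases w with
      | nil => rfl
      | cons c w => cases c <;> simp [ma, emb] at hm
    subst hw
    simp [tr, ma, emb]
  · have h4 : (1 : ℝ) ≤ ma w := by exact_mod_cast Nat.one_le_iff_ne_zero.2 hm
    set x : ℝ := (ma (tr false w) : ℝ)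
    set y : ℝ := (ma (tr true w) : ℝ)
    set m : ℝ := (ma w : ℝ)
    have h5 : (x - y) ^ 2 ≤ (m + 1) ^ 2 := by
      rw [sq_le_sq, abs_of_nonneg (by linarith : (0 : ℝ) ≤ m + 1), abs_le]
      constructor <;> linarith
    nlinarith [h5, h1]

theorem pf_SEC : T_SEC := by
  intro T
  induction T with
  | zero =>
    intro i w h
    have h0 : i = 0 := by omega
    subst h0
    simp only [mo]
    rw [Finset.sum_const, Finset.card_univ, cardV]
    simp
  | succ T ih =>
    intro i w h
    cases i with
    | zero =>
      simp only [mo]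
      rw [Finset.sum_const, Finset.card_univ, cardV]
      have h1 : (0 : ℝ) ≤ ma w := Nat.cast_nonneg _
      have h2 : (0 : ℝ) < 2 ^ (T + 1) := by positivity
      simp only [nsmul_eq_mul, pow_zero, mul_one]
      push_cast
      nlinarith [mul_nonneg h2.le h1]
    | succ i =>
      rw [sumV]
      simp only [mo]
      have h1 := ih i (tr false w) (by omega)
      have h2 := ih i (tr true w) (by omega)
      have h3 := one_lev w
      have h4 : (0 : ℝ) ≤ 2 ^ T * (5 / 4) ^ i := by positivity
      have h5 := mul_le_mul_of_nonneg_left h3 h4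
      rw [pow_succ, pow_succ]
      nlinarith [h1, h2, h5]

end Pool.Agent.H75.RW.SEC
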