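import Pool.Agent.H75.RW.Asm
import Pool.Agent.H75.RW.LEV
import Pool.Agent.H75.RW.CHI
import Pool.Agent.H75.RW.SEC
import Pool.Agent.H37.RW.GAP
import Pool.Agent.H37.RW.KER
import Pool.Agent.H37.RW.AVC
import Pool.Agent.H37.RW.CNB
import Pool.Agent.H35.RW.RowCON
import Pool.Agent.H35.RW.CHM
import Pool.Agent.H84.RW.ITC
import Pool.Agent.H84.RW.CIA
import Pool.Agent.H84.RW.CIB
import Pool.Agent.H84.RW.PSI
import Pool.Agent.H84.RW.SVM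
import Pool.Agent.H84.RW.CHB
import Pool.Agent.H84.RW.SRV
import Pool.Agent.H79.RW.SMP
import Pool.Agent.H66.RW.VAR
import Pool.Agent.H66.RW.AS
import Pool.Agent.H63.RW.BLK
import Pool.Agent.H51.RW.PAN
import Pool.Agent.H49.RW.RAW
import Pool.Agent.H49.RW.ITR
import Pool.Agent.H49.RW.EVC

/-!
# De Mol's tag system S₂ on random words: the theorem
-/

set_option autoImplicit false

open List Pool.Agent.H68.TG

namespace Pool.Agent.H75.RW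

theorem x_CON : T_CON := Pool.Agent.H35.RW.pf_CON Pool.Agent.H37.RW.pf_GAP CHI.pf_CHI

theorem x_ITC : T_ITC := Pool.Agent.H84.RW.pf_ITC x_CON CHI.pf_CHI

theorem x_KER : T_KER := Pool.Agent.H37.RW.pf_KER x_ITC CHI.pf_CHI

theorem x_VAR : T_VAR := Pool.Agent.H66.RW.pf_VAR (Pool.Agent.H79.RW.pf_SMP x_ITC CHI.pf_CHI)

theorem x_CHM : T_CHM := Pool.Agent.H35.RW.pf_CHM x_VAR
  (Pool.Agent.H84.RW.pf_CIA x_KER CHI.pf_BKC) (Pool.Agent.H84.RW.pf_CIB x_KER)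

theorem x_CHB : T_CHB := Pool.Agent.H84.RW.pf_CHB x_CHM CHI.pf_FIR SEC.pf_SEC

theorem x_SRV : T_SRV := Pool.Agent.H84.RW.pf_SRV x_CHM
  (Pool.Agent.H84.RW.pf_SVM CHI.pf_XOH Pool.Agent.H84.RW.pf_PSI)

theorem x_FIN : T_FIN := pf_FIN Pool.Agent.H49.RW.pf_RAW
  (Pool.Agent.H49.RW.pf_ITR pf_PAN) Pool.Agent.H49.RW.pf_EVC
  Pool.Agent.H37.RW.pf_AVC Pool.Agent.H37.RW.pf_CNB (Pool.Agent.H63.RW.pf_BLK CHI.pf_XOH)
  (LEV.pf_LEV x_CHB x_SRV) Pool.Agent.H66.RW.pf_AS1 Pool.Agent.H66.RW.pf_AS2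
  Pool.Agent.H66.RW.pf_AS3

end Pool.Agent.H75.RW
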