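import Pool.Agent.H75.RW.Targets

/-!
# De Mol's tag system S₂ on random words: the theorem from the modules
-/

set_option autoImplicit false

open List Pool.Agent.H68.TG

namespace Pool.Agent.H75.RW

theorem tape_len (q : Bool × List Bool) : (ma q.2 : ℝ) - 1 ≤ ((tape q).length : ℝ) ∧
    ((tape q).length : ℝ) ≤ ma q.2 := by
  obtain ⟨s, w⟩ := q
  have h : (tape (s, w)).length = ma w - cond s 1 0 := by
    simp [tape, ma]
  rw [h]
  constructor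
  · have h1 : ma w ≤ (ma w - cond s 1 0) + 1 := by
      cases s
      · simp
      · simp only [cond_true]; omega
    have h2 : (ma w : ℝ) ≤ ((ma w - cond s 1 0 : ℕ) : ℝ) + 1 := by exact_mod_cast h1
    simpa using by linarith
  · exact_mod_cast Nat.sub_le _ _

theorem blk_tape (B : ℝ) (q : Bool × List Bool) (l : List (ℕ × ℕ)) (h : emb q.2 = prodb l)
    (hl : (l.length : ℝ) ≤ B) : Blk B (tape q) := by
  refine ⟨l, hl, ?_⟩
  obtain ⟨s, w⟩ := q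
  cases s
  · left
    simpa [tape] using h
  · right
    have h1 : tape (true, w) = (emb w).drop 1 := rfl
    rw [h1]
    simp only at h
    rw [h, List.drop_one]

/-- the implication behind the theorem. -/
theorem good_of (hRAW : T_RAW) (hITR : T_ITR) (hEVC : T_EVC) (hBLK : T_BLK) (N : ℕ)
    (hN : 100 ≤ N) (K : Finset (List (Fin 3)))
    (hK : ∀ u, Blk (N * Real.exp (-(TT N : ℝ) / 60)) u → u.length ≤ 2 * N → u ∈ K)
    (h1 : ∀ i ≤ TT N, 1.38 * (59 / 60) ^ i * (((N + 1) / 2 : ℕ) : ℝ) +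
      (N : ℝ) ^ (9 / 10 : ℝ) / 2 ≤ N * Real.exp (-(i : ℝ) / 60))
    (h2 : N * Real.log N / 7 ≤ TT N * ((N : ℝ) / 2 - (N : ℝ) ^ (9 / 10 : ℝ)))
    (h3 : 100 ≤ (N : ℝ) ^ (9 / 10 : ℝ)) (h4 : (N : ℝ) ^ (9 / 10 : ℝ) ≤ N / 2)
    (w : List (Fin 3)) (hw : w.length = N)
    (hG : ∀ i ≤ TT N, |(ma (mo (TT N) i (W (ev w)) (cs (TT N) N.bodd (W (ev w)))) : ℝ) -
        2 * (((N + 1) / 2 : ℕ) : ℝ)| < (N : ℝ) ^ (9 / 10 : ℝ) / 2 ∧
      SS (TT N) (sv (TT N) i) (cs (TT N) N.bodd (W (ev w))) (ev w) <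
        1.38 * (59 / 60) ^ i * (((N + 1) / 2 : ℕ) : ℝ) + (N : ℝ) ^ (9 / 10 : ℝ) / 2) :
    Good N K w := by
  set T := TT N with hT
  set a := (N : ℝ) ^ (9 / 10 : ℝ) with ha
  obtain ⟨r1, r2⟩ := hRAW w (by omega)
  rw [hw, hEVC.1 w] at r1
  rw [hw] at r2
  set u := W (ev w) with hu
  set s := N.bodd with hs
  have hn1 : (N : ℝ) ≤ 2 * (((N + 1) / 2 : ℕ) : ℝ) := by
    have : N ≤ 2 * ((N + 1) / 2) := by omega
    exact_mod_cast this
  have hn2 : 2 * (((N + 1) / 2 : ℕ) : ℝ) ≤ N + 1 := by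
    have : 2 * ((N + 1) / 2) ≤ N + 1 := by omega
    exact_mod_cast this
  have hNR : (100 : ℝ) ≤ N := by exact_mod_cast hN
  have hma : ∀ i ≤ T, |(ma (pass^[i] (s, u)).2 : ℝ) - 2 * (((N + 1) / 2 : ℕ) : ℝ)| < a / 2 := by
    intro i hi
    rw [pass_iter T i s u hi]
    exact (hG i hi).1
  obtain ⟨k, k0, k1, k2, k3⟩ := hITR w ((N + 1) / 2) T s u r1 r2 (by
    intro i hi
    have h5 := (abs_lt.1 (hma i hi)).1
    have h6 : (10 : ℝ) ≤ (ma (pass^[i] (s, u)).2 : ℝ) := by linarith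
    exact_mod_cast h6)
  have hk : ∀ i < T, |(k (i + 1) : ℝ) - k i - N / 2| ≤ a := by
    intro i hi
    have h5 := abs_lt.1 (hma i hi.le)
    have h6 := abs_le.1 (k1 i hi)
    rw [abs_le]
    constructor <;> linarith [h5.1, h5.2, h6.1, h6.2]
  have hlen : ∀ i ≤ T, |((step^[k i] w).length : ℝ) - N| ≤ a := by
    intro i hi
    rw [k2 i hi]
    have h5 := abs_lt.1 (hma i hi)
    have h6 := tape_len (pass^[i] (s, u))
    rw [abs_le]
    constructor <;> linarith [h5.1, h5.2, h6.1, h6.2]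
  have hblk : ∀ i ≤ T, Blk (N * Real.exp (-(i : ℝ) / 60)) (step^[k i] w) := by
    intro i hi
    rw [k2 i hi]
    obtain ⟨l, l1, l2⟩ := hBLK T i (ev w) (cs T s u)
    refine blk_tape _ _ l ?_ ?_
    · rw [pass_iter T i s u hi]
      exact l1
    · rw [l2]
      exact ((hG i hi).2.le).trans (h1 i hi)
  have hkT : ∀ i ≤ T, (i : ℝ) * ((N : ℝ) / 2 - a) ≤ k i := by
    intro i
    induction i with
    | zero => intro _; simp
    | succ i ih =>
      intro hi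
      have h5 := ih (by omega)
      have h6 := (abs_le.1 (hk i (by omega))).1
      push_cast
      linarith
  refine ⟨k, k0, hk, fun i hi => ⟨hlen i hi, hblk i hi⟩, h2.trans (hkT T le_rfl), k3, ?_⟩
  refine hK _ (hblk T le_rfl) ?_
  have h5 := (abs_le.1 (hlen T le_rfl)).2
  have h6 : ((step^[k T] w).length : ℝ) ≤ 2 * N := by linarith
  exact_mod_cast h6

theorem pf_FIN (hRAW : T_RAW) (hITR : T_ITR) (hEVC : T_EVC) (hAVC : T_AVC) (hCNB : T_CNB)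
    (hBLK : T_BLK) (hLEV : T_LEV) (hAS1 : T_AS1) (hAS2 : T_AS2) (hAS3 : T_AS3) : T_FIN := by
  obtain ⟨N1, a1⟩ := hAS1
  obtain ⟨N2, a2⟩ := hAS2
  obtain ⟨N3, a3⟩ := hAS3
  refine ⟨max (max N1 N2) (max N3 100), fun N hN => ?_⟩
  have hN1 : N1 ≤ N := le_trans (le_trans (le_max_left _ _) (le_max_left _ _)) hN
  have hN2 : N2 ≤ N := le_trans (le_trans (le_max_right _ _) (le_max_left _ _)) hN
  have hN3 : N3 ≤ N := le_trans (le_trans (le_max_left _ _) (le_max_right _ _)) hN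
  have hN4 : 100 ≤ N := le_trans (le_trans (le_max_right _ _) (le_max_right _ _)) hN
  obtain ⟨b1, b2, b3⟩ := a1 N hN1
  obtain ⟨c1, c2, c3, c4⟩ := a2 N hN2
  have d1 := a3 N hN3
  obtain ⟨K, hK, hKc⟩ := hCNB (2 * N) (N * Real.exp (-(TT N : ℝ) / 60)) (by positivity)
  refine ⟨K, hKc.trans d1, ?_⟩
  rw [hAVC, mul_comm]
  refine mul_le_mul_of_nonneg_right ?_ (by positivity)
  have e1 : avg N (fun w => ind (¬ Good N K w)) ≤ avg N (fun w => ind (¬ ∀ i ≤ TT N,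
      |(ma (mo (TT N) i (W (ev w)) (cs (TT N) N.bodd (W (ev w)))) : ℝ) -
        2 * (((N + 1) / 2 : ℕ) : ℝ)| < (N : ℝ) ^ (9 / 10 : ℝ) / 2 ∧
      SS (TT N) (sv (TT N) i) (cs (TT N) N.bodd (W (ev w))) (ev w) <
        1.38 * (59 / 60) ^ i * (((N + 1) / 2 : ℕ) : ℝ) + (N : ℝ) ^ (9 / 10 : ℝ) / 2)) := by
    refine avg_mono N _ _ fun w hw => ind_mono _ _ ?_
    intro h1 h2
    exact h1 (good_of hRAW hITR hEVC hBLK N hN4 K hK c1 c2 c3 c4 w hw h2)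
  refine e1.trans ?_
  rw [hEVC.2 N (fun x => ind (¬ ∀ i ≤ TT N,
      |(ma (mo (TT N) i (W x) (cs (TT N) N.bodd (W x))) : ℝ) -
        2 * (((N + 1) / 2 : ℕ) : ℝ)| < (N : ℝ) ^ (9 / 10 : ℝ) / 2 ∧
      SS (TT N) (sv (TT N) i) (cs (TT N) N.bodd (W x)) x <
        1.38 * (59 / 60) ^ i * (((N + 1) / 2 : ℕ) : ℝ) + (N : ℝ) ^ (9 / 10 : ℝ) / 2))]
  exact (hLEV (TT N) ((N + 1) / 2) N.bodd ((N : ℝ) ^ (9 / 10 : ℝ) / 2) (by linarith) b1 b2).trans b3

end Pool.Agent.H75.RW
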