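import Pool.Agent.H75.RW.Defs
import Pool.Agent.H43.TG.RDB
import Pool.Agent.H43.TG.RDW

/-!
# De Mol's tag system S₂ on random words: elementary facts
-/

set_option autoImplicit false

open List Pool.Agent.H68.TG

namespace Pool.Agent.H75.RW

/-! ### Vectors of states -/

theorem sumV (t : ℕ) (f : V (t + 1) → ℝ) :
    ∑ σ, f σ = ∑ ρ : V t, f (false, ρ) + ∑ ρ : V t, f (true, ρ) := by
  have h : ∑ σ : V (t + 1), f σ = ∑ σ : Bool × V t, f σ := rfl
  rw [h, Fintype.sum_prod_type]
  simp only [Fintype.sum_bool]
  ring

theorem cardV (t : ℕ) : Fintype.card (V t) = 2 ^ t := by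
  induction t with
  | zero => rfl
  | succ t ih =>
    have h : Fintype.card (V (t + 1)) = Fintype.card (Bool × V t) := rfl
    rw [h, Fintype.card_prod, ih, Fintype.card_bool]
    ring

theorem ms_append (t : ℕ) : ∀ (u v : List Bool) (σ : V t),
    ms t (u ++ v) σ = ms t v (ms t u σ) := by
  induction t with
  | zero => intro u v σ; rfl
  | succ t ih =>
    intro u v σ
    simp only [ms]
    rw [(Pool.Agent.H43.TG.tr_append u σ.1 v).1, (Pool.Agent.H43.TG.tr_append u σ.1 v).2, ih]

theorem ms_nil (t : ℕ) : ∀ σ : V t, ms t [] σ = σ := by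
  induction t with
  | zero => intro σ; rfl
  | succ t ih =>
    intro σ
    simp only [ms, st, tr, ih]
    rfl

theorem mo_append (T : ℕ) : ∀ (i : ℕ) (u v : List Bool) (σ : V T),
    mo T i (u ++ v) σ = mo T i u σ ++ mo T i v (ms T u σ) := by
  induction T with
  | zero => intro i u v σ; cases i <;> rfl
  | succ T ih =>
    intro i u v σ
    cases i with
    | zero => rfl
    | succ i =>
      simp only [mo, ms]
      rw [(Pool.Agent.H43.TG.tr_append u σ.1 v).1, ih]

theorem mo_nil (T : ℕ) : ∀ (i : ℕ) (σ : V T), mo T i [] σ = [] := by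
  induction T with
  | zero => intro i σ; cases i <;> rfl
  | succ T ih =>
    intro i σ
    cases i with
    | zero => rfl
    | succ i => simp only [mo, tr, ih]

theorem st_ne (w : List Bool) : st true w = !(st false w) := by
  induction w with
  | nil => rfl
  | cons c w ih => cases c <;> simp [st, ih]

theorem st_inj (w : List Bool) (a b : Bool) (h : st a w = st b w) : a = b := by
  cases a <;> cases b <;> simp_all [st_ne]

theorem ms_inj (t : ℕ) : ∀ w : List Bool, Function.Injective (ms t w) := by
  induction t with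
  | zero => intro w a b _; rfl
  | succ t ih =>
    rintro w ⟨a, ρ⟩ ⟨b, τ⟩ h
    obtain ⟨h1, h2⟩ := Prod.mk.inj
      (show ((st a w, ms t (tr a w) ρ) : Bool × V t) = (st b w, ms t (tr b w) τ) from h)
    have h3 := st_inj w a b h1
    subst h3
    have h4 := ih _ h2
    rw [h4]

theorem ms_bij (t : ℕ) (w : List Bool) : Function.Bijective (ms t w) :=
  (Finite.injective_iff_bijective).1 (ms_inj t w)

theorem sum_ms (t : ℕ) (w : List Bool) (f : V t → ℝ) : ∑ σ, f (ms t w σ) = ∑ σ, f σ :=
  (ms_bij t w).sum_comp f

theorem pass_iter (T : ℕ) : ∀ (i : ℕ) (s : Bool) (w : List Bool), i ≤ T →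
    (pass^[i] (s, w)).2 = mo T i w (cs T s w) := by
  induction T with
  | zero =>
    intro i s w h
    have h0 : i = 0 := by omega
    subst h0
    rfl
  | succ T ih =>
    intro i s w h
    cases i with
    | zero => rfl
    | succ i =>
      rw [Function.iterate_succ_apply]
      exact ih i (st s w) (tr s w) (by omega)

theorem cs_eq (T : ℕ) : ∀ (s : Bool) (w : List Bool),
    cs T s w = bk T s (ms T w (cs T s w)) := by
  induction T with
  | zero => intro s w; rfl
  | succ T ih =>
    intro s w
    have h := ih (st s w) (tr s w)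
    simp only [cs, ms, bk]
    rw [← h]

/-! ### Letters -/

theorem ms_ff (t : ℕ) (ρ : V t) : ms (t + 1) [false] (false, ρ) = (true, ms t [true] ρ) := rfl
theorem ms_ft (t : ℕ) (ρ : V t) : ms (t + 1) [false] (true, ρ) = (false, ρ) := by
  have h : ms (t + 1) [false] (true, ρ) = (false, ms t [] ρ) := rfl
  rw [h, ms_nil]
theorem ms_tf (t : ℕ) (ρ : V t) : ms (t + 1) [true] (false, ρ) = (false, ms t [false] ρ) := rfl
theorem ms_tt (t : ℕ) (ρ : V t) :
    ms (t + 1) [true] (true, ρ) = (true, ms t [false, false, false] ρ) := rfl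

theorem W_append (x y : List (Fin 3)) : W (x ++ y) = W x ++ W y := flatMap_append

theorem W_cons (c : Fin 3) (x : List (Fin 3)) : W (c :: x) = img c ++ W x := flatMap_cons

theorem emb_app (a b : List Bool) : emb (a ++ b) = emb a ++ emb b :=
  Pool.Agent.H43.TG.emb_append a b

theorem ma_append (u v : List Bool) : ma (u ++ v) = ma u + ma v := by
  unfold ma
  rw [emb_app, length_append]

/-- the length at the level `i` is the sum of the lengths written by the letters. -/
theorem ma_mo (T i : ℕ) (x : List (Fin 3)) : ∀ σ : V T,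
    (ma (mo T i (W x) σ) : ℝ) = SS T (ml T i) σ x := by
  induction x with
  | nil => intro σ; simp [W, mo_nil, ma, emb, SS]
  | cons c x ih =>
    intro σ
    rw [W_cons, mo_append, ma_append, SS, ← ih, Nat.cast_add]
    rfl

theorem SS_append (t : ℕ) (F : V t → Fin 3 → ℝ) (x y : List (Fin 3)) : ∀ σ : V t,
    SS t F σ (x ++ y) = SS t F σ x + SS t F (ms t (W x) σ) y := by
  induction x with
  | nil => intro σ; simp [SS, W, ms_nil]
  | cons c x ih =>
    intro σ
    rw [cons_append, SS, SS, ih, W_cons, ms_append]
    ring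

/-! ### Averages -/

theorem avg_const (n : ℕ) (c : ℝ) : avg n (fun _ => c) = c := by
  induction n with
  | zero => rfl
  | succ n ih => simp only [avg, ih]; ring

theorem avg_add (n : ℕ) : ∀ F G : List (Fin 3) → ℝ,
    avg n (fun x => F x + G x) = avg n F + avg n G := by
  induction n with
  | zero => intro F G; rfl
  | succ n ih => intro F G; simp only [avg, ih]; ring

theorem avg_mul (n : ℕ) (c : ℝ) : ∀ F : List (Fin 3) → ℝ,
    avg n (fun x => c * F x) = c * avg n F := by
  induction n with
  | zero => intro F; rfl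
  | succ n ih => intro F; simp only [avg, ih]; ring

theorem avg_mono (n : ℕ) : ∀ F G : List (Fin 3) → ℝ, (∀ x, x.length = n → F x ≤ G x) →
    avg n F ≤ avg n G := by
  induction n with
  | zero => intro F G h; exact h [] rfl
  | succ n ih =>
    intro F G h
    simp only [avg]
    have h0 := ih (fun x => F (0 :: x)) (fun x => G (0 :: x)) (fun x hx => h _ (by simp [hx]))
    have h1 := ih (fun x => F (1 :: x)) (fun x => G (1 :: x)) (fun x hx => h _ (by simp [hx]))
    have h2 := ih (fun x => F (2 :: x)) (fun x => G (2 :: x)) (fun x hx => h _ (by simp [hx]))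
    linarith

theorem avg_congr (n : ℕ) (F G : List (Fin 3) → ℝ) (h : ∀ x, x.length = n → F x = G x) :
    avg n F = avg n G :=
  le_antisymm (avg_mono n F G fun x hx => (h x hx).le) (avg_mono n G F fun x hx => (h x hx).ge)

theorem avg_nonneg (n : ℕ) (F : List (Fin 3) → ℝ) (h : ∀ x, 0 ≤ F x) : 0 ≤ avg n F := by
  rw [← avg_const n 0]
  exact avg_mono n _ _ fun x _ => h x

theorem avg_sum {ι : Type*} (n : ℕ) (s : Finset ι) (F : ι → List (Fin 3) → ℝ) :
    avg n (fun x => ∑ i ∈ s, F i x) = ∑ i ∈ s, avg n (F i) := by
  classical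
  induction s using Finset.induction_on with
  | empty => simp [avg_const]
  | insert a s ha ih =>
    rw [Finset.sum_insert ha, ← ih, ← avg_add]
    congr 1
    funext x
    rw [Finset.sum_insert ha]

theorem avg_append (m n : ℕ) : ∀ F : List (Fin 3) → ℝ,
    avg (m + n) F = avg m (fun y => avg n (fun z => F (y ++ z))) := by
  induction m with
  | zero => intro F; simp [avg]
  | succ m ih =>
    intro F
    rw [Nat.add_right_comm]
    simp only [avg, ih, cons_append]

theorem avg_comm (m n : ℕ) (F : List (Fin 3) → List (Fin 3) → ℝ) :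
    avg m (fun y => avg n (fun z => F y z)) = avg n (fun z => avg m (fun y => F y z)) := by
  induction m generalizing F with
  | zero => rfl
  | succ m ih =>
    simp only [avg]
    have e : (fun z => (avg m (fun x => F (0 :: x) z) + avg m (fun x => F (1 :: x) z) +
        avg m (fun x => F (2 :: x) z)) / 3) = fun z => (1 / 3) *
        ((avg m (fun x => F (0 :: x) z) + avg m (fun x => F (1 :: x) z)) +
        avg m (fun x => F (2 :: x) z)) := by
      funext z; ring
    rw [e, avg_mul, avg_add, avg_add, ih, ih, ih]
    ring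

/-- the random walk is the average over the random words. -/
theorem avg_P (t n : ℕ) (f : V t → ℝ) : ∀ σ, avg n (fun x => f (ms t (W x) σ)) = (P t)^[n] f σ := by
  induction n generalizing f with
  | zero => intro σ; simp [avg, W, ms_nil]
  | succ n ih =>
    intro σ
    have h : ∀ n, ∀ f : V t → ℝ, ∀ σ, (P t)^[n + 1] f σ = P t ((P t)^[n] f) σ := by
      intro n f σ
      rw [Function.iterate_succ_apply']
    rw [h]
    simp only [avg, P]
    rw [← ih, ← ih, ← ih]
    simp only [W_cons, ms_append]

theorem ind_le_one (p : Prop) : ind p ≤ 1 := by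
  unfold ind
  split_ifs <;> norm_num

theorem ind_nonneg (p : Prop) : 0 ≤ ind p := by
  unfold ind
  split_ifs <;> norm_num

theorem ind_of (p : Prop) (h : p) : ind p = 1 := by
  unfold ind
  rw [if_pos h]

theorem ind_not (p : Prop) (h : ¬ p) : ind p = 0 := by
  unfold ind
  rw [if_neg h]

theorem ind_mono (p q : Prop) (h : p → q) : ind p ≤ ind q := by
  by_cases hp : p
  · rw [ind_of p hp, ind_of q (h hp)]
  · rw [ind_not p hp]; exact ind_nonneg q

theorem ind_or (p q : Prop) : ind (p ∨ q) ≤ ind p + ind q := by
  by_cases hp : p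
  · rw [ind_of p hp]
    have := ind_nonneg q
    have := ind_le_one (p ∨ q)
    linarith
  · by_cases hq : q
    · rw [ind_of q hq]
      have := ind_nonneg p
      have := ind_le_one (p ∨ q)
      linarith
    · rw [ind_not (p ∨ q) (by tauto)]
      have := ind_nonneg p
      have := ind_nonneg q
      linarith

end Pool.Agent.H75.RW
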