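import Pool.Agent.H68.TG.Targets

/-!
# De Mol's tag system S₂ on random words (problem MP_c95a35_lc): definitions
-/

set_option autoImplicit false

open List Pool.Agent.H68.TG

namespace Pool.Agent.H75.RW

/-! ### The statement -/

/-- the product of the blocks `0^x (12)^y` -/
def prodb (l : List (ℕ × ℕ)) : List (Fin 3) := l.flatMap fun b => replicate b.1 0 ++ dd b.2

/-- `u` is a product of at most `B` blocks `0^x (12)^y`, or such a product without its first
letter -/
def Blk (B : ℝ) (u : List (Fin 3)) : Prop :=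
  ∃ l : List (ℕ × ℕ), (l.length : ℝ) ≤ B ∧ (u = prodb l ∨ u = (prodb l).tail)

/-- the number of passes -/
noncomputable def TT (N : ℕ) : ℕ := ⌊Real.log N / 3⌋₊

/-- the typical behaviour of the computation on the word `w` of length `N` -/
def Good (N : ℕ) (K : Finset (List (Fin 3))) (w : List (Fin 3)) : Prop :=
  ∃ k : ℕ → ℕ, k 0 = (N + 1) / 2 ∧
    (∀ i < TT N, |(k (i + 1) : ℝ) - k i - N / 2| ≤ (N : ℝ) ^ (9 / 10 : ℝ)) ∧
    (∀ i ≤ TT N, |((step^[k i] w).length : ℝ) - N| ≤ (N : ℝ) ^ (9 / 10 : ℝ) ∧
      Blk (N * Real.exp (-(i : ℝ) / 60)) (step^[k i] w)) ∧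
    (N : ℝ) * Real.log N / 7 ≤ k (TT N) ∧
    (∀ j ≤ k (TT N), 2 ≤ (step^[j] w).length) ∧
    step^[k (TT N)] w ∈ K

/-! ### Vectors of states -/

/-- vectors of `t` states -/
def V : ℕ → Type
  | 0 => Unit
  | t + 1 => Bool × V t

instance instFV : ∀ t, Fintype (V t)
  | 0 => inferInstanceAs (Fintype Unit)
  | t + 1 => @instFintypeProd Bool (V t) _ (instFV t)

instance instDV : ∀ t, DecidableEq (V t)
  | 0 => inferInstanceAs (DecidableEq Unit)
  | t + 1 => @instDecidableEqProd Bool (V t) _ (instDV t)

/-- the states of the `t` levels after reading `w` -/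
def ms : ∀ t : ℕ, List Bool → V t → V t
  | 0, _, σ => σ
  | t + 1, w, σ => (st σ.1 w, ms t (tr σ.1 w) σ.2)

/-- the output of the level `i`, of `T` levels -/
def mo : ∀ T : ℕ, ℕ → List Bool → V T → List Bool
  | _, 0, w, _ => w
  | 0, _ + 1, w, _ => w
  | T + 1, i + 1, w, σ => mo T i (tr σ.1 w) σ.2

/-- the states at the start of the passes over `w`, from the state `s` -/
def cs : ∀ t : ℕ, Bool → List Bool → V t
  | 0, _, _ => ()
  | t + 1, s, w => (s, cs t (st s w) (tr s w))

/-- the start vector from the final vector: every level starts where the previous one ends -/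
def bk : ∀ t : ℕ, Bool → V t → V t
  | 0, _, _ => ()
  | t + 1, s, f => (s, bk t f.1 f.2)

/-- the symbols of a word over the three letters -/
def W (x : List (Fin 3)) : List Bool := x.flatMap img

/-- the length of the word of a list of symbols -/
def ma (w : List Bool) : ℕ := (emb w).length

/-- the average over the words of length `n` over the three letters -/
noncomputable def avg : ℕ → (List (Fin 3) → ℝ) → ℝ
  | 0, F => F []
  | n + 1, F => (avg n (fun x => F (0 :: x)) + avg n (fun x => F (1 :: x)) +
      avg n (fun x => F (2 :: x))) / 3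

/-- the random walk: one random letter -/
noncomputable def P (t : ℕ) (f : V t → ℝ) : V t → ℝ := fun σ =>
  (f (ms t (img 0) σ) + f (ms t (img 1) σ) + f (ms t (img 2) σ)) / 3

/-- the sum of `F` over the letters of `x`, from the vector `σ` -/
noncomputable def SS (t : ℕ) (F : V t → Fin 3 → ℝ) : V t → List (Fin 3) → ℝ
  | _, [] => 0
  | σ, c :: x => F σ c + SS t F (ms t (img c) σ) x

/-- the sign: every letter changes it -/
noncomputable def chi (t : ℕ) (σ : V (t + 2)) : ℝ := if xor σ.1 σ.2.1 then -1 else 1

/-- the energy of `f` for the word `w` -/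
noncomputable def Q (t : ℕ) (w : List Bool) (f : V t → ℝ) : ℝ := ∑ σ, (f σ - f (ms t w σ)) ^ 2

/-- the block written by the block `q = (c, x)` in the state `s` -/
def nb (s : Bool) (q : Bool × ℕ) : Bool × ℕ := (!q.1, if q.1 then t3 s q.2 else hf s q.2)

/-- the output of the level `i` on a block -/
def xo : ∀ T : ℕ, ℕ → Bool × ℕ → V T → Bool × ℕ
  | _, 0, q, _ => q
  | 0, _ + 1, q, _ => q
  | T + 1, i + 1, q, σ => xo T i (nb σ.1 q) σ.2

/-- the size of a block -/
noncomputable def psi (q : Bool × ℕ) : ℝ := (if q.1 then 1.39 else 1) * Real.sqrt q.2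

/-- the letter `c` survives at the level `i` -/
noncomputable def sv (T i : ℕ) (σ : V T) (c : Fin 3) : ℝ := if mo T i (img c) σ = [] then 0 else 1

/-- the length written by the letter `c` at the level `i` -/
noncomputable def ml (T i : ℕ) (σ : V T) (c : Fin 3) : ℝ := ma (mo T i (img c) σ)

/-- the letters at the even positions -/
def ev : List (Fin 3) → List (Fin 3)
  | [] => []
  | [c] => [c]
  | c :: _ :: w => c :: ev w

/-- the indicator of a proposition -/
noncomputable def ind (p : Prop) : ℝ := by classical exact if p then 1 else 0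

end Pool.Agent.H75.RW
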