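import Pool.Agent.H75.RW.Targets

/-!
# De Mol's tag system S₂ on random words: module GAP (the inequality of Poincaré)
-/

set_option autoImplicit false

open List Pool.Agent.H68.TG

namespace Pool.Agent.H75.RW.GAP

private theorem sq_add (x y : ℝ) : (x + y) ^ 2 ≤ 2 * x ^ 2 + 2 * y ^ 2 := by
  nlinarith [sq_nonneg (x - y)]

private theorem Q_eq (t : ℕ) (w : List Bool) (f : V t → ℝ) :
    Q t w f = ∑ σ, (f σ - f (ms t w σ)) ^ 2 := rfl

/-- one level. -/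
private theorem step_gap (t : ℕ) (α β : ℝ) (hα : 0 ≤ α) (hβ : 0 ≤ β)
    (ih : ∀ f : V t → ℝ, ∑ σ, f σ = 0 →
      ∑ σ, f σ ^ 2 ≤ α * Q t [false] f + β * Q t [true] f)
    (f : V (t + 1) → ℝ) (hf : ∑ σ, f σ = 0) :
    ∑ σ, f σ ^ 2 ≤ (6 * β + 2) * Q (t + 1) [false] f + 3 * α * Q (t + 1) [true] f := by
  set g : V t → ℝ := fun ρ => f (false, ρ) with hg
  set h : V t → ℝ := fun ρ => f (true, ρ) with hh
  set m : ℝ := (∑ ρ, g ρ) / 2 ^ t with hm
  have hcard : ∀ c : ℝ, ∑ _ρ : V t, c = 2 ^ t * c := by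
    intro c
    rw [Finset.sum_const, Finset.card_univ, cardV]
    simp
  have h2 : (2 : ℝ) ^ t ≠ 0 := by positivity
  -- energies on two levels
  have hQA : Q (t + 1) [false] f = ∑ ρ, (g ρ - h (ms t [true] ρ)) ^ 2 + ∑ ρ, (h ρ - g ρ) ^ 2 := by
    rw [Q_eq, sumV]
    simp only [ms_ff, ms_ft]
    rfl
  have hQD : Q (t + 1) [true] f = ∑ ρ, (g ρ - g (ms t [false] ρ)) ^ 2 +
      ∑ ρ, (h ρ - h (ms t [false, false, false] ρ)) ^ 2 := by
    rw [Q_eq, sumV]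
    simp only [ms_tf, ms_tt]
    rfl
  -- (1)
  have e1 : ∑ ρ, (g ρ - m) ^ 2 ≤ α * Q t [false] g + β * Q t [true] g := by
    have h3 := ih (fun ρ => g ρ - m) (by
      rw [Finset.sum_sub_distrib, hcard, hm]
      field_simp
      ring)
    have h4 : ∀ w, Q t w (fun ρ => g ρ - m) = Q t w g := by
      intro w
      rw [Q_eq, Q_eq]
      refine Finset.sum_congr rfl fun σ _ => ?_
      ring
    rw [h4, h4] at h3
    exact h3
  -- (2)
  have e2 : Q t [false] g ≤ Q (t + 1) [true] f := by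
    rw [hQD, Q_eq]
    have : 0 ≤ ∑ ρ, (h ρ - h (ms t [false, false, false] ρ)) ^ 2 :=
      Finset.sum_nonneg fun _ _ => sq_nonneg _
    linarith
  -- (3)
  have e3 : Q t [true] g ≤ 2 * Q (t + 1) [false] f := by
    rw [hQA, Q_eq]
    have h5 : ∑ ρ, (h (ms t [true] ρ) - g (ms t [true] ρ)) ^ 2 = ∑ ρ, (h ρ - g ρ) ^ 2 :=
      sum_ms t [true] fun ρ => (h ρ - g ρ) ^ 2
    rw [← h5, mul_add, Finset.mul_sum, Finset.mul_sum, ← Finset.sum_add_distrib]
    refine Finset.sum_le_sum fun ρ _ => ?_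
    have := sq_add (g ρ - h (ms t [true] ρ)) (h (ms t [true] ρ) - g (ms t [true] ρ))
    have e : g ρ - h (ms t [true] ρ) + (h (ms t [true] ρ) - g (ms t [true] ρ)) =
      g ρ - g (ms t [true] ρ) := by ring
    rw [e] at this
    exact this
  -- (4)
  have e4 : ∑ σ, f σ ^ 2 ≤ 3 * ∑ ρ, (g ρ - m) ^ 2 + 2 * ∑ ρ, (h ρ - g ρ) ^ 2 := by
    have h6 : ∑ σ, f σ ^ 2 ≤ ∑ σ, (f σ - m) ^ 2 := by
      have h7 : ∑ σ, (f σ - m) ^ 2 = ∑ σ, f σ ^ 2 - 2 * m * ∑ σ, f σ + ∑ _σ : V (t + 1), m ^ 2 := by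
        rw [Finset.mul_sum, ← Finset.sum_sub_distrib, ← Finset.sum_add_distrib]
        refine Finset.sum_congr rfl fun σ _ => ?_
        ring
      have h8 : (0 : ℝ) ≤ ∑ _σ : V (t + 1), m ^ 2 := Finset.sum_nonneg fun _ _ => sq_nonneg _
      rw [h7, hf]
      linarith
    refine h6.trans ?_
    rw [sumV]
    have h9 : ∑ ρ, (h ρ - m) ^ 2 ≤ 2 * ∑ ρ, (g ρ - m) ^ 2 + 2 * ∑ ρ, (h ρ - g ρ) ^ 2 := by
      rw [Finset.mul_sum, Finset.mul_sum, ← Finset.sum_add_distrib]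
      refine Finset.sum_le_sum fun ρ _ => ?_
      have := sq_add (g ρ - m) (h ρ - g ρ)
      have e : g ρ - m + (h ρ - g ρ) = h ρ - m := by ring
      rw [e] at this
      exact this
    have h10 : ∑ ρ : V t, (f (false, ρ) - m) ^ 2 = ∑ ρ, (g ρ - m) ^ 2 := rfl
    have h11 : ∑ ρ : V t, (f (true, ρ) - m) ^ 2 = ∑ ρ, (h ρ - m) ^ 2 := rfl
    rw [h10, h11]
    linarith
  have e5 : ∑ ρ, (h ρ - g ρ) ^ 2 ≤ Q (t + 1) [false] f := by
    rw [hQA]
    have : 0 ≤ ∑ ρ, (g ρ - h (ms t [true] ρ)) ^ 2 := Finset.sum_nonneg fun _ _ => sq_nonneg _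
    linarith
  have e6 : α * Q t [false] g ≤ α * Q (t + 1) [true] f := mul_le_mul_of_nonneg_left e2 hα
  have e7 : β * Q t [true] g ≤ β * (2 * Q (t + 1) [false] f) := mul_le_mul_of_nonneg_left e3 hβ
  linarith

theorem pf_GAP : T_GAP := by
  intro t
  induction t with
  | zero =>
    intro f hf
    have h1 : ∀ σ, f σ = 0 := by
      intro σ
      have h2 : ∑ τ : V 0, f τ = f σ := by
        have h3 : ∀ τ : V 0, f τ = f σ := fun τ => rfl
        rw [Finset.sum_congr rfl fun τ _ => h3 τ, Finset.sum_const, Finset.card_univ, cardV]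
        simp
      rw [← h2, hf]
    have h4 : ∑ σ, f σ ^ 2 = 0 := Finset.sum_eq_zero fun σ _ => by rw [h1 σ]; norm_num
    have h5 : 0 ≤ Q 0 [false] f := Finset.sum_nonneg fun _ _ => sq_nonneg _
    have h6 : 0 ≤ Q 0 [true] f := Finset.sum_nonneg fun _ _ => sq_nonneg _
    rw [h4]
    positivity
  | succ t ih =>
    intro f hf
    refine (step_gap t (4 * (9 / 2) ^ t) (8 / 3 * (9 / 2) ^ t) (by positivity) (by positivity)
      ih f hf).trans ?_
    have h1 : (1 : ℝ) ≤ (9 / 2) ^ t := one_le_pow₀ (by norm_num)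
    have h5 : 0 ≤ Q (t + 1) [false] f := Finset.sum_nonneg fun _ _ => sq_nonneg _
    have h2 : 6 * (8 / 3 * (9 / 2 : ℝ) ^ t) + 2 ≤ 4 * (9 / 2) ^ (t + 1) := by
      rw [pow_succ]
      linarith
    have h3 : 3 * (4 * (9 / 2 : ℝ) ^ t) = 8 / 3 * (9 / 2) ^ (t + 1) := by
      rw [pow_succ]
      ring
    rw [h3]
    have := mul_le_mul_of_nonneg_right h2 h5
    linarith

end Pool.Agent.H75.RW.GAP
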