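import Pool.Agent.H75.RW.Basic

/-!
# De Mol's tag system S₂ on random words: targets
-/

set_option autoImplicit false

open List Pool.Agent.H68.TG

namespace Pool.Agent.H75.RW

/-! ### A. The tag system -/

/-- (PAN) one pass, with the number of steps. -/
def T_PAN : Prop := ∀ (s : Bool) (w : List Bool), 2 ≤ (tape (s, w)).length → ∃ n,
  2 * n = (tape (s, w)).length + cond (st s w) 1 0 ∧
  step^[n] (tape (s, w)) = tape (pass (s, w)) ∧ ∀ j < n, 2 ≤ (step^[j] (tape (s, w))).length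

/-- (RAW) reading an arbitrary word. -/
def T_RAW : Prop := ∀ w : List (Fin 3), 4 ≤ w.length →
  step^[(w.length + 1) / 2] w = tape (w.length.bodd, rd false w) ∧
  ∀ j ≤ (w.length + 1) / 2, 2 ≤ (step^[j] w).length

/-- (ITR) many passes: the pass number `i` starts at the time `k i`. -/
def T_ITR : Prop := ∀ (w : List (Fin 3)) (k0 T : ℕ) (s : Bool) (u : List Bool),
  step^[k0] w = tape (s, u) → (∀ j ≤ k0, 2 ≤ (step^[j] w).length) →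
  (∀ i ≤ T, 10 ≤ ma (pass^[i] (s, u)).2) →
  ∃ k : ℕ → ℕ, k 0 = k0 ∧
    (∀ i < T, |(k (i + 1) : ℝ) - k i - (ma (pass^[i] (s, u)).2 : ℝ) / 2| ≤ 1) ∧
    (∀ i ≤ T, step^[k i] w = tape (pass^[i] (s, u))) ∧
    ∀ j ≤ k T, 2 ≤ (step^[j] w).length

/-- (EVC) a random word is read as a random word of half the length. -/
def T_EVC : Prop := (∀ w : List (Fin 3), rd false w = W (ev w)) ∧
  ∀ (N : ℕ) (F : List (Fin 3) → ℝ), avg N (fun w => F (ev w)) = avg ((N + 1) / 2) F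

/-- (AVC) averages and numbers. -/
def T_AVC : Prop := ∀ (N : ℕ) (p : List (Fin 3) → Prop),
  (({w : List (Fin 3) | w.length = N ∧ p w}.ncard : ℕ) : ℝ) = 3 ^ N * avg N (fun w => ind (p w))

/-- (CNB) the number of short words with few blocks. -/
def T_CNB : Prop := ∀ (M : ℕ) (B : ℝ), 0 ≤ B → ∃ K : Finset (List (Fin 3)),
  (∀ u, Blk B u → u.length ≤ M → u ∈ K) ∧ (K.card : ℝ) ≤ 2 * ((M : ℝ) + 2) ^ (2 * B)

/-- (BLK) the letters which survive are the blocks. -/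
def T_BLK : Prop := ∀ (T i : ℕ) (x : List (Fin 3)) (σ : V T),
  ∃ l : List (ℕ × ℕ), emb (mo T i (W x) σ) = prodb l ∧ (l.length : ℝ) = SS T (sv T i) σ x

/-! ### B. The gap -/

/-- (BKC) the start vector determines the final vector up to its last state. -/
def T_BKC : Prop := ∀ (T : ℕ) (s : Bool) (σ : V T),
  (Finset.univ.filter fun f : V T => bk T s f = σ).card ≤ 2

/-- (CHI) the sign. -/
def T_CHI : Prop := ∀ t : ℕ, (∀ σ, chi t σ ^ 2 = 1) ∧ ∑ σ, chi t σ = 0 ∧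
  (∀ σ, chi t (ms (t + 2) [false] σ) = -chi t σ) ∧
  (∀ σ, chi t (ms (t + 2) [true] σ) = -chi t σ) ∧
  ∀ (c : Fin 3) (σ : V (t + 2)), chi t (ms (t + 2) (img c) σ) = -chi t σ

/-- (GAP) the inequality of Poincaré. -/
def T_GAP : Prop := ∀ (t : ℕ) (f : V t → ℝ), ∑ σ, f σ = 0 →
  ∑ σ, f σ ^ 2 ≤ 4 * (9 / 2) ^ t * Q t [false] f + 8 / 3 * (9 / 2) ^ t * Q t [true] f

/-- the rate of contraction -/
noncomputable def rho (t : ℕ) : ℝ := 1 - 1 / (1620 * (9 / 2) ^ (t + 2))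

/-- (CON) two letters contract. -/
def T_CON : Prop := ∀ (t : ℕ) (f : V (t + 2) → ℝ), ∑ σ, f σ = 0 → ∑ σ, chi t σ * f σ = 0 →
  ∑ σ, P (t + 2) (P (t + 2) f) σ ^ 2 ≤ rho t * ∑ σ, f σ ^ 2

/-- (ITC) many letters contract. -/
def T_ITC : Prop := ∀ (t n : ℕ) (f : V (t + 2) → ℝ), ∑ σ, f σ = 0 → ∑ σ, chi t σ * f σ = 0 →
  ∑ σ, ((P (t + 2))^[n] f) σ ^ 2 ≤ rho t ^ (n / 2) * ∑ σ, f σ ^ 2

/-- (KER) the law of the state vector after a long random word. -/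
def T_KER : Prop := ∀ (t n : ℕ) (σ τ : V (t + 2)), 6000 * (9 / 2 : ℝ) ^ (t + 2) * (t + 3) ≤ n →
  avg n (fun x => ind (ms (t + 2) (W x) σ = τ)) ≤ 3 / 2 ^ (t + 2)

/-- (SMP) the sums of the random walk. -/
def T_SMP : Prop := ∀ (t n : ℕ) (f : V (t + 2) → ℝ), ∑ σ, f σ = 0 →
  ∑ σ, (∑ j ∈ Finset.range n, ((P (t + 2))^[j] f) σ) ^ 2 ≤
    (7000 * (9 / 2) ^ (t + 2)) ^ 2 * ∑ σ, f σ ^ 2

/-- (VAR) the variance of sums over the letters. -/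
def T_VAR : Prop := ∀ (t n : ℕ) (F : V (t + 2) → Fin 3 → ℝ) (M : ℝ),
  ∑ σ, ∑ c, F σ c = 3 * 2 ^ (t + 2) * M →
  ∑ σ, avg n (fun x => (SS (t + 2) F σ x - n * M) ^ 2) ≤
    20000 * (9 / 2) ^ (t + 2) * n * (∑ σ, ∑ c, F σ c ^ 2) / 3

/-! ### C. The circular process -/

/-- (CIA) the vector at the start. -/
def T_CIA : Prop := ∀ (t m n : ℕ) (s : Bool) (H : V (t + 2) → List (Fin 3) → ℝ),
  (∀ σ x, 0 ≤ H σ x) → 6000 * (9 / 2 : ℝ) ^ (t + 2) * (t + 3) ≤ n →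
  avg m (fun y => avg n (fun z => H (cs (t + 2) s (W (y ++ z))) y)) ≤
    6 / 2 ^ (t + 2) * ∑ σ, avg m (fun y => H σ y)

/-- (CIB) the vector in the middle. -/
def T_CIB : Prop := ∀ (t m n : ℕ) (s : Bool) (H : V (t + 2) → List (Fin 3) → ℝ),
  (∀ σ x, 0 ≤ H σ x) → 6000 * (9 / 2 : ℝ) ^ (t + 2) * (t + 3) ≤ m →
  avg m (fun y => avg n (fun z =>
    H (ms (t + 2) (W y) (cs (t + 2) s (W (y ++ z)))) z)) ≤
    3 / 2 ^ (t + 2) * ∑ σ, avg n (fun z => H σ z)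

/-- (CHM) the inequality of Chebyshev for the circular process. -/
def T_CHM : Prop := ∀ (t m n : ℕ) (s : Bool) (F : V (t + 2) → Fin 3 → ℝ) (M a : ℝ), 0 < a →
  6000 * (9 / 2 : ℝ) ^ (t + 2) * (t + 3) ≤ m → 6000 * (9 / 2 : ℝ) ^ (t + 2) * (t + 3) ≤ n →
  ∑ σ, ∑ c, F σ c = 3 * 2 ^ (t + 2) * M →
  avg (m + n) (fun x =>
    ind (a ≤ |SS (t + 2) F (cs (t + 2) s (W x)) x - ((m : ℝ) + n) * M|)) ≤
    160000 * (9 / 2) ^ (t + 2) * (m + n) * (∑ σ, ∑ c, F σ c ^ 2) / (2 ^ (t + 2) * a ^ 2)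

/-! ### D. The letters -/

/-- (XOH) the outputs of blocks are blocks. -/
def T_XOH : Prop := ∀ (T i : ℕ) (q : Bool × ℕ) (σ : V T),
  mo T i (replicate q.2 q.1) σ = replicate (xo T i q σ).2 (xo T i q σ).1

/-- (PSI) the blocks shrink. -/
def T_PSI : Prop := ∀ (T i : ℕ) (q : Bool × ℕ), i ≤ T →
  ∑ σ, psi (xo T i q σ) ≤ 2 ^ T * (59 / 60) ^ i * psi q

/-- (SVM) the mean number of survivors. -/
def T_SVM : Prop := ∀ T i : ℕ, i ≤ T →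
  ∑ σ, ∑ c, sv T i σ c ≤ 3 * 2 ^ T * (1.38 * (59 / 60) ^ i)

/-- (FIR) the mean length is kept. -/
def T_FIR : Prop := ∀ (T i : ℕ) (w : List Bool), i ≤ T →
  ∑ σ : V T, (ma (mo T i w σ) : ℝ) = 2 ^ T * ma w

/-- (SEC) the second moment of the length. -/
def T_SEC : Prop := ∀ (T i : ℕ) (w : List Bool), i ≤ T →
  ∑ σ : V T, (ma (mo T i w σ) : ℝ) ^ 2 ≤ 2 ^ T * (5 / 4) ^ i * ((ma w : ℝ) ^ 2 + 4 * ma w)

/-- (CHB) the length at the level `i`. -/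
def T_CHB : Prop := ∀ (t m n i : ℕ) (s : Bool) (a : ℝ), 0 < a → i ≤ t + 2 →
  6000 * (9 / 2 : ℝ) ^ (t + 2) * (t + 3) ≤ m → 6000 * (9 / 2 : ℝ) ^ (t + 2) * (t + 3) ≤ n →
  avg (m + n) (fun x => ind (a ≤
    |(ma (mo (t + 2) i (W x) (cs (t + 2) s (W x))) : ℝ) - 2 * ((m : ℝ) + n)|)) ≤
    10 ^ 7 * (9 / 2) ^ (t + 2) * (5 / 4) ^ i * (m + n) / a ^ 2

/-- (SRV) the number of survivors at the level `i`. -/
def T_SRV : Prop := ∀ (t m n i : ℕ) (s : Bool) (a : ℝ), 0 < a → i ≤ t + 2 →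
  6000 * (9 / 2 : ℝ) ^ (t + 2) * (t + 3) ≤ m → 6000 * (9 / 2 : ℝ) ^ (t + 2) * (t + 3) ≤ n →
  avg (m + n) (fun x => ind (1.38 * (59 / 60) ^ i * ((m : ℝ) + n) + a ≤
    SS (t + 2) (sv (t + 2) i) (cs (t + 2) s (W x)) x)) ≤
    10 ^ 7 * (9 / 2) ^ (t + 2) * (5 / 4) ^ i * (m + n) / a ^ 2

/-! ### E. The numbers -/

/-- (AS1) the error, for large `N`. -/
def T_AS1 : Prop := ∃ N₀ : ℕ, ∀ N ≥ N₀, 2 ≤ TT N ∧
  6000 * (9 / 2 : ℝ) ^ TT N * (TT N + 1) ≤ (((N + 1) / 2 / 2 : ℕ) : ℝ) ∧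
  ((TT N : ℝ) + 1) * (2 * (10 ^ 7 * (9 / 2) ^ TT N * (5 / 4) ^ TT N *
    (((N + 1) / 2 : ℕ) : ℝ) / ((N : ℝ) ^ (9 / 10 : ℝ) / 2) ^ 2)) ≤ (N : ℝ) ^ (-(1 / 5) : ℝ)

/-- (AS2) the blocks and the time, for large `N`. -/
def T_AS2 : Prop := ∃ N₀ : ℕ, ∀ N ≥ N₀,
  (∀ i ≤ TT N, 1.38 * (59 / 60) ^ i * (((N + 1) / 2 : ℕ) : ℝ) + (N : ℝ) ^ (9 / 10 : ℝ) / 2 ≤
    N * Real.exp (-(i : ℝ) / 60)) ∧
  N * Real.log N / 7 ≤ TT N * ((N : ℝ) / 2 - (N : ℝ) ^ (9 / 10 : ℝ)) ∧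
  100 ≤ (N : ℝ) ^ (9 / 10 : ℝ) ∧ (N : ℝ) ^ (9 / 10 : ℝ) ≤ N / 2

/-- (AS3) the number of words, for large `N`. -/
def T_AS3 : Prop := ∃ N₀ : ℕ, ∀ N ≥ N₀,
  2 * (((2 * N : ℕ) : ℝ) + 2) ^ (2 * (N * Real.exp (-(TT N : ℝ) / 60))) ≤
    Real.exp ((N : ℝ) ^ (199 / 200 : ℝ))

/-- (LEV) all levels. -/
def T_LEV : Prop := ∀ (T n : ℕ) (s : Bool) (a : ℝ), 0 < a → 2 ≤ T →
  6000 * (9 / 2 : ℝ) ^ T * (T + 1) ≤ ((n / 2 : ℕ) : ℝ) →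
  avg n (fun x => ind (¬ ∀ i ≤ T, |(ma (mo T i (W x) (cs T s (W x))) : ℝ) - 2 * n| < a ∧
    SS T (sv T i) (cs T s (W x)) x < 1.38 * (59 / 60) ^ i * n + a)) ≤
    ((T : ℝ) + 1) * (2 * (10 ^ 7 * (9 / 2) ^ T * (5 / 4) ^ T * n / a ^ 2))

/-- (FIN) the theorem. -/
def T_FIN : Prop := ∃ N₀ : ℕ, ∀ N ≥ N₀, ∃ K : Finset (List (Fin 3)),
  (K.card : ℝ) ≤ Real.exp ((N : ℝ) ^ (199 / 200 : ℝ)) ∧
  (({w : List (Fin 3) | w.length = N ∧ ¬ Good N K w}.ncard : ℕ) : ℝ) ≤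
    (N : ℝ) ^ (-(1 / 5) : ℝ) * 3 ^ N

end Pool.Agent.H75.RW
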